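import Pool.Agent.TH885.NW.Exp2
import Pool.Agent.TH434.NW.Near

/-! NU8: the windows `Emp` and `Sur` at `N` points, with `S = √ (4 N)`. -/

set_option autoImplicit false

namespace Pool.Agent.TH885.NU

open Finset Pool.Agent.TH176.Nag Pool.Agent.TH603.Sur

theorem sqrt_four (N : ℕ) : √(4 * (N : ℝ)) = 2 * √(N : ℝ) := by
  rw [Real.sqrt_mul (by norm_num)]
  congr 1
  rw [show (4 : ℝ) = 2 ^ 2 by norm_num]
  exact Real.sqrt_sq (by norm_num)

/-- window `Emp` at `N` points -/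
theorem Emp_nu {ι : Type} [Fintype ι] {u : ι → ℕ} {N b d : ℕ} (hc : Fintype.card ι = N) (hN : 36 ≤ N)
    (hb : ∀ i, b ≤ u i) (hb' : N ≤ b)
    (h : √(4 * (N : ℝ)) * (2 * d + 3) + 2 * √(4 * (N : ℝ)) / 3 + 9 / 2 <
      4 * ((∑ i, u i : ℕ) : ℝ) + 2 * N) : Emp u (TZ d) := by
  have hNR : (36 : ℝ) ≤ N := by exact_mod_cast hN
  have hbR : (N : ℝ) ≤ b := by exact_mod_cast hb'
  have hs0 := Real.sqrt_nonneg (N : ℝ)
  rw [sqrt_four] at h
  refine Pool.Agent.TH434.NW.Emp_near (m := b) (n := N) (by omega) hc hb (by omega) ?_ ?_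
  · linarith
  · nlinarith

/-- window `Sur` at `N` points -/
theorem Sur_nu {ι : Type} [Fintype ι] {u : ι → ℕ} {N b d : ℕ} (hc : Fintype.card ι = N) (hN : 36 ≤ N)
    (hb : ∀ i, b ≤ u i ∧ u i ≤ b + 1)
    (h : 4 * ((∑ i, u i : ℕ) : ℝ) + 2 * N + 2 * √(4 * (N : ℝ)) / 3 + 1 / 2 <
      √(4 * (N : ℝ)) * (2 * d + 3)) : Sur u (TZ d) := by
  rw [sqrt_four] at h
  refine Pool.Agent.TH641.NW.Sur_win2 Pool.Agent.TH641.NW.keyS (n := N) (b := b) (by omega) hc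
    (fun i => (hb i).2) ?_
  have e : ∑ i, max (u i) b = ∑ i, u i := Finset.sum_congr rfl fun i _ => max_eq_left (hb i).1
  rw [e]
  nlinarith

end Pool.Agent.TH885.NU
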